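import Pool.Agent.Lib.MP_1e31fb_an.Global

/-!
# Absolutely minimal Lipschitz extensions between Hilbert spaces

Every Lipschitz map from a closed subset of a real Hilbert space into a real Hilbert space has an
absolutely minimal Lipschitz extension.
-/

open Set Metric Topology
open scoped ENNReal NNReal

namespace Pool.Agent.Results.MP_1e31fb_an.AmleHilbert

/-- The Lipschitz constant of `g` on the set `S`, as an extended nonnegative real number: the
supremum of the quotients `d (g x) (g y) / d x y` over the pairs of distinct points `x`, `y` of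
`S` (it is `0` if `S` has fewer than two points). -/
noncomputable def lipConst {X Z : Type*} [MetricSpace X] [MetricSpace Z] (g : X → Z)
    (S : Set X) : ℝ≥0∞ :=
  ⨆ x ∈ S, ⨆ y ∈ S, ⨆ _ : x ≠ y, edist (g x) (g y) / edist x y

/-- The map `g : X → Z` is an absolutely minimal Lipschitz extension of `f : Y → Z`. -/
def IsAMLE {X Z : Type*} [MetricSpace X] [MetricSpace Z] (Y : Set X) (f : Y → Z)
    (g : X → Z) : Prop :=
  (∀ y : Y, g y = f y) ∧
    ∀ U : Set X, IsOpen U → U ⊆ Yᶜ → lipConst g U ≤ lipConst g (frontier U)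

theorem lipConst_le_iff {X Z : Type*} [MetricSpace X] [MetricSpace Z] {g : X → Z}
    {S : Set X} {K : ℝ≥0} : lipConst g S ≤ K ↔ LipschitzOnWith K g S := by
  unfold lipConst LipschitzOnWith
  simp only [iSup_le_iff]
  constructor
  · intro h x hx y hy
    by_cases hxy : x = y
    · subst hxy
      simp
    · have h1 := h x hx y hy hxy
      rwa [ENNReal.div_le_iff (edist_pos.2 hxy).ne' (edist_ne_top x y)] at h1
  · intro h x hx y hy hxy
    rw [ENNReal.div_le_iff (edist_pos.2 hxy).ne' (edist_ne_top x y)]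
    exact h hx hy

/-- **Main theorem.** For all real Hilbert spaces `H₁`, `H₂` (of arbitrary dimension, separable or
not), every closed set `Y ⊆ H₁` and every Lipschitz map `f : Y → H₂` there is an absolutely
minimal Lipschitz extension `g : H₁ → H₂` of `f`. -/
theorem result.{u, v} (H₁ : Type u) [NormedAddCommGroup H₁] [InnerProductSpace ℝ H₁]
    [CompleteSpace H₁] (H₂ : Type v) [NormedAddCommGroup H₂] [InnerProductSpace ℝ H₂]
    [CompleteSpace H₂] (Y : Set H₁) (hY : IsClosed Y) (f : Y → H₂)
    (hf : lipConst f univ < ⊤) : ∃ g : H₁ → H₂, IsAMLE Y f g := by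
  classical
  lift lipConst f univ to ℝ≥0 using hf.ne with K hK
  have hfK : LipschitzOnWith K f univ := lipConst_le_iff.1 hK.ge
  let f' : H₁ → H₂ := fun x => if h : x ∈ Y then f ⟨x, h⟩ else 0
  have hf' : Pool.Agent.Lib.MP_1e31fb_an.LipOn (K : ℝ) f' Y := by
    intro x hx y hy
    simp only [f', dif_pos hx, dif_pos hy]
    have h1 := hfK.dist_le_mul ⟨x, hx⟩ (mem_univ _) ⟨y, hy⟩ (mem_univ _)
    rw [Subtype.dist_eq, dist_eq_norm, dist_eq_norm] at h1
    exact h1
  obtain ⟨g, hg1, hg2⟩ := Pool.Agent.Lib.MP_1e31fb_an.amle_exists hY hf'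
  refine ⟨g, fun y => ?_, fun U hU hUY => ?_⟩
  · rw [hg1 y y.2]
    simp only [f', dif_pos y.2]
  · by_cases htop : lipConst g (frontier U) = ⊤
    · rw [htop]
      exact le_top
    · lift lipConst g (frontier U) to ℝ≥0 using htop with C hC
      rw [lipConst_le_iff, ← Pool.Agent.Lib.MP_1e31fb_an.lipOn_iff_lipschitzOnWith]
      refine hg2 U hU (disjoint_left.2 hUY) C C.2 ?_
      rw [Pool.Agent.Lib.MP_1e31fb_an.lipOn_iff_lipschitzOnWith, ← lipConst_le_iff]
      exact hC.ge

end Pool.Agent.Results.MP_1e31fb_an.AmleHilbert
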